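import Pool.Agent.L7h89.NH.Fin
import Pool.Agent.L7h89.NH.Exa
import Pool.Agent.L7h75.NH.Bas
import Pool.Agent.L7h75.NH.Crd
import Pool.Agent.L7h67.NH.Afc
import Pool.Agent.L7h67.NH.Ccc
import Pool.Agent.L7h67.NH.Shf
import Pool.Agent.L7h67.NH.Uni
import Pool.Agent.L7h33.NH.Afd
import Pool.Agent.L7h33.NH.Afg
import Pool.Agent.L7h33.NH.Afh
import Pool.Agent.L7h29.NH.Eva
import Pool.Agent.L7h29.NH.Lam
import Pool.Agent.L7h29.NH.Tot
import Pool.Agent.L7h42.NH.Kil
import Pool.Agent.L7h42.NH.Par
import Pool.Agent.L7h42.NH.Pen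
import Pool.Agent.L7h15.NH.Cca
import Pool.Agent.L7h65.NH.Afa
import Pool.Agent.L7h65.NH.Afe
import Pool.Agent.L7h65.NH.Ncv
import Pool.Agent.L7h70.NH.Aff
import Pool.Agent.L7h70.NH.Trf

/-!
# The second largest non-hitting index of (q+1)-sets of PG(2,q), q odd (MP_8b6d0b_co, Q1)

`U(q) = (q^2 - 2q + 3)/2` for every odd prime power `q ≥ 5`, and `U(3) = 2`.

Proof.  If `t_i` lines meet `S` in `i` points, `u_0(S) = q(q-1)/2 - w`, `w = ∑ binom(i-1,2) t_i`,
so the question is the smallest positive `w`.  For a point `x` of `S` the quotient of the product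
of the tangents at `x` by the product of the `(i-2)`-th powers of the `i`-secants at `x` is a
rational form `f_x` of degree 1 on the pencil of `x`, and `f_x + f_y = 0` at the bisecant `xy`.
For a product `Ψ` of `q - 4` points which vanishes at all `i`-secants (`i ≥ 3`) but one to order
`> 3(i-2)`, and at that one to order exactly `3(i-2)`, the sum of `Ψ f_x^3` over all flags is zero
and equals a sum over the points of `S` on the exceptional line which can be made nonzero.  Such a
`Ψ` with at most `2w + 1` factors exists unless the characteristic is 3, all lines with at least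
three points of `S` are 3-secants through one point outside `S` and their triples are arithmetic
progressions; that case is excluded by comparing the quadratic forms `f_x` directly.  So
`2w + 5 > q`.  Equality `w = (q-3)/2` holds for a conic in which one point is replaced by an
external point on a secant through it.

Lean proof by helper89 with helper15, helper29, helper33, helper42, helper65,
helper67, helper70 and helper75.
-/

set_option autoImplicit false

open scoped LinearAlgebra.Projectivization Matrix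

namespace Pool.Agent.Results.MP_8b6d0b_co.SecondLargestIndex

/-- The non-hitting index of a finite set `S` of points of `PG(2,F)`: the number of lines that
contain no point of `S`.  Points and lines are given by homogeneous coordinates (elements of the
projective plane over `F`), and the point `p` lies on the line `l` if the scalar product of their
coordinate vectors is zero. -/
noncomputable def nonHittingIndex {F : Type} [Field F] (S : Finset (ℙ F (Fin 3 → F))) : ℕ :=
  Nat.card {l : ℙ F (Fin 3 → F) // ∀ p ∈ S, p.rep ⬝ᵥ l.rep ≠ 0}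

open Pool.Agent.L7h89.NH in
/-- **The second largest non-hitting index of (q+1)-sets.** -/
theorem result (F : Type) [Field F] [Fintype F] (hq : Odd (Fintype.card F)) :
    IsGreatest {n : ℕ | ∃ S : Finset (ℙ F (Fin 3 → F)), S.card = Fintype.card F + 1 ∧
        nonHittingIndex S = n ∧ n < Fintype.card F * (Fintype.card F - 1) / 2}
      (if Fintype.card F = 3 then 2 else (Fintype.card F ^ 2 - 2 * Fintype.card F + 3) / 2) := by
  have hB := Pool.Agent.L7h75.NH.s_BAS
  have hL := Pool.Agent.L7h29.NH.s_LAM
  have hCNT := Pool.Agent.L7h75.NH.s_CNT hB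
  have hPEN := Pool.Agent.L7h42.NH.s_PEN hB Pool.Agent.L7h67.NH.s_UNI
    (Pool.Agent.L7h42.NH.s_PAR hB) (Pool.Agent.L7h29.NH.s_EVA hL)
  have hTOT := Pool.Agent.L7h29.NH.s_TOT hB hL hPEN (Pool.Agent.L7h29.NH.s_BIS hL)
  have hKIL := Pool.Agent.L7h42.NH.s_KIL hL hTOT
  have hNCV := Pool.Agent.L7h65.NH.s_NCV hB hKIL Pool.Agent.L7h67.NH.s_SHF
    (Pool.Agent.L7h15.NH.s_POP hB)
  have hCCA := Pool.Agent.L7h15.NH.s_CCA hB hKIL
  have hCCB := Pool.Agent.L7h15.NH.s_CCB hB hKIL
  have hCCC := Pool.Agent.L7h67.NH.s_CCC hB hL hTOT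
  have hCCD := Pool.Agent.L7h67.NH.s_CCD hB hL hTOT
  have hAFE := Pool.Agent.L7h65.NH.s_AFE Pool.Agent.L7h65.NH.s_AFA Pool.Agent.L7h67.NH.s_AFB
    Pool.Agent.L7h67.NH.s_AFC
  have hAFF := Pool.Agent.L7h70.NH.s_AFF Pool.Agent.L7h33.NH.s_AFD hAFE
  have hAFH := Pool.Agent.L7h33.NH.s_AFH hAFE hAFF Pool.Agent.L7h33.NH.s_AFG
  have hTRF := Pool.Agent.L7h70.NH.s_TRF hB Pool.Agent.L7h75.NH.s_CRD hAFH hCCD hCCA
  have hLOW := s_LOW hNCV hCCA hCCB hCCC hTRF
  exact s_FIN hCNT hLOW s_EXA (Pool.Agent.L7h15.NH.s_EXT hB) F hq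

end Pool.Agent.Results.MP_8b6d0b_co.SecondLargestIndex

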